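import Mathlib
import Pool.Agent.K1H27.CP.Defs
import Pool.Agent.K1H27.CP.Final
import Pool.Agent.K1H27.CP.Deg

/-!
# MP_a1177b_an: domains of complete Pick pairs with a diagonal first kernel

Let `(k, l, Ω)` be a complete Pick pair of holomorphic kernels on a domain `0 ∈ Ω ⊆ ℂ^g`, with `k`
normalized diagonal and `l` not identically zero, and let `ϑ` be the master certificate of `k`.
Then `Ω` does not contain the closure of `Ω¹_ϑ`. (For `l = 0` the pair `(k, l, Ω)` is complete Pick
for trivial reasons whenever `k` has no zero on the diagonal, and `Ω` may be all of `ℂ^g`.)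

All definitions are in `Pool/Agent/K1H27/CP/Defs.lean`.

Idea of the proof. On the dense open set where `l (x, y0) ≠ 0` the pair has a Shimorin certificate
`p[z]`. The kernel `p[z] l` is dominated by `l`, hence holomorphic, and Riemann's extension theorem
applied to the bounded quotient `p[z] l / l` shows that `p[z]` extends to a holomorphic kernel on
`Ω` bounded by one. On a polydisc inside `Ω` take the diagonal Taylor coefficients of `p[z]` and let
`z → 0`: this gives `q_a ≥ 0`, `q_0 = 0`, `∑ q_a |x|^{2a} ≤ 1` and `(q * k)_a ≥ k_a` for `a ≠ 0`. Then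
`1 / (1 - ϑ) ≤ 1 / (1 - q)` coefficientwise, so that the polydisc is contained in `Ω¹_ϑ`. If the closure
of the bounded complete Reinhardt set `Ω¹_ϑ` were contained in `Ω`, then slightly bigger polydiscs
would be contained in `Ω¹_ϑ` again, a contradiction.
-/

set_option autoImplicit false

namespace Pool.Agent.Results.MP_a1177b_an.DomainsOfCPPairs

open Pool.Agent.K1H27.CP

/-- For every complete Pick pair `(k, l, Ω)` of holomorphic kernels on a domain `0 ∈ Ω ⊆ ℂ^g`,
`g ≥ 1`, with `k` normalized diagonal and `l` not identically zero, `Ω` does not contain the closure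
of `Ω¹_ϑ`, where `ϑ` is the master certificate of `k`. The condition on `l` cannot be dropped: for
`l = 0` there is such a pair on `Ω = ℂ^g`. -/
theorem result :
    (∀ g : ℕ, 1 ≤ g → ∀ (Ω : Set (Fin g → ℂ)) (k l : (Fin g → ℂ) → (Fin g → ℂ) → ℂ)
      (c ϑ : (Fin g →₀ ℕ) → ℝ), IsOpen Ω → IsConnected Ω → 0 ∈ Ω →
      IsKernel Ω k → IsHolomorphic Ω k → (∀ a, 0 < c a) → c 0 = 1 → HasDiagonalExpansion k c →
      IsMasterCertificate c ϑ → IsKernel Ω l → IsHolomorphic Ω l →
      (∃ z ∈ Ω, ∃ w ∈ Ω, l z w ≠ 0) → IsCPPair Ω k l → ¬ closure (OmegaOne ϑ) ⊆ Ω) ∧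
    (∀ g : ℕ, ∃ (k : (Fin g → ℂ) → (Fin g → ℂ) → ℂ) (c : (Fin g →₀ ℕ) → ℝ),
      IsKernel Set.univ k ∧ IsHolomorphic Set.univ k ∧ (∀ a, 0 < c a) ∧ c 0 = 1 ∧
      HasDiagonalExpansion k c ∧ IsCPPair Set.univ k (fun _ _ => 0)) := by
  refine ⟨?_, fun g => ⟨ke, fun a => ∏ j, ((a j).factorial : ℝ)⁻¹, isKernel_ke, holo_ke, ?_, ?_,
    diag_ke, cp_ke⟩⟩
  · intro g hg Ω k l c ϑ hΩ hconn h0 hkk hk hc hc0 hd hM hlk hl hlne hcp
    exact main hg hΩ hconn h0 hkk hk hlk hl hlne hc hc0 hd hM hcp
  · intro a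
    exact Finset.prod_pos fun j _ => by positivity
  · simp

end Pool.Agent.Results.MP_a1177b_an.DomainsOfCPPairs
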